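import Pool.Agent.J4H58.OC.Stm4
import Pool.Agent.R938.ORF.Main

/-!
# Project OC: job NRI

Normalisation for equal even functions.
-/

set_option autoImplicit false

namespace Pool.Agent.J4H71.OC

open MeasureTheory Set Filter Topology ProbabilityTheory
open scoped ENNReal NNReal InnerProductSpace
open Pool.Agent.W695.KH (Eu)
open Pool.Agent.R476.OR (CV NV SV KV LVL)
open Pool.Agent.R938.ORF

/-- the shift of the normalisation of an even function is `0` -/
lemma shift_zero {V V' : ℝ → ℝ} (hV : CV V V') (hev : ∀ t, V (-t) = V t) {c B : ℝ}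
    (hco : Coer V c B) {l : ℝ} (hl : 0 < l) {a d k : ℝ} (hd : 0 < d)
    (h : NV (fun t => l * V (a + d * t) + k) (fun t => l * d * V' (a + d * t))) : a = 0 := by
  have hc := cv_cont hV
  have i1 : Integrable fun y => (y - a) * Real.exp (-(l * V y)) := by
    refine int_dom hco hc hl (by fun_prop) (K := 1 + |a|) fun t => ?_
    have h1 : |t| ≤ 1 + t ^ 2 := by
      rw [abs_le]
      constructor <;> nlinarith [sq_nonneg (t + 1), sq_nonneg (t - 1)]
    calc |t - a| ≤ |t| + |a| := abs_sub _ _
      _ ≤ (1 + |a|) * (1 + t ^ 2) := by nlinarith [abs_nonneg a, sq_nonneg t]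
  have i0 : Integrable fun y => Real.exp (-(l * V y)) := by
    have := int_dom (φ := fun _ => 1) hco hc hl (by fun_prop) (K := 1) fun t => by
      rw [abs_one]
      nlinarith [sq_nonneg t]
    simpa using this
  have i2 : Integrable fun y => y * Real.exp (-(l * V y)) := by
    have := i1.add (i0.const_mul a)
    refine this.congr (Eventually.of_forall fun y => ?_)
    simp only [Pi.add_apply]
    ring
  -- the mean
  have h1 := h.nd.mean
  have h2 : ∫ t, t * Real.exp (-(l * V (a + d * t) + k)) =
      ∫ t, (fun y => d⁻¹ * Real.exp (-k) * ((y - a) * Real.exp (-(l * V y)))) (a + d * t) := by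
    refine integral_congr_ae (Eventually.of_forall fun t => ?_)
    simp only
    rw [neg_add, Real.exp_add]
    field_simp
    ring
  rw [h2, cov (fun y => d⁻¹ * Real.exp (-k) * ((y - a) * Real.exp (-(l * V y)))) a hd,
    integral_const_mul] at h1
  have h3 : ∫ y, (y - a) * Real.exp (-(l * V y)) = 0 := by
    have e1 : d⁻¹ ≠ 0 := inv_ne_zero hd.ne'
    have e2 := (Real.exp_pos (-k)).ne'
    rcases mul_eq_zero.1 h1 with h | h
    · exact absurd h e1
    · rcases mul_eq_zero.1 h with h | h
      · exact absurd h (mul_ne_zero e1 e2)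
      · exact h
  have h4 : ∫ y, (y - a) * Real.exp (-(l * V y)) =
      (∫ y, y * Real.exp (-(l * V y))) - a * ∫ y, Real.exp (-(l * V y)) := by
    rw [← integral_const_mul, ← integral_sub i2 (i0.const_mul a)]
    refine integral_congr_ae (Eventually.of_forall fun t => ?_)
    simp only
    ring
  have h5 : ∫ y, y * Real.exp (-(l * V y)) = 0 := by
    have h6 : ∫ y, y * Real.exp (-(l * V y)) = ∫ y, -y * Real.exp (-(l * V (-y))) :=
      (integral_neg_eq_self (fun y => y * Real.exp (-(l * V y))) volume).symm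
    have h7 : ∫ y, -y * Real.exp (-(l * V (-y))) = -∫ y, y * Real.exp (-(l * V y)) := by
      rw [← integral_neg]
      refine integral_congr_ae (Eventually.of_forall fun t => ?_)
      simp only [hev]
      ring
    linarith
  have h6 : 0 < ∫ y, Real.exp (-(l * V y)) := integral_exp_pos i0
  rw [h4, h5, zero_sub, neg_eq_zero] at h3
  rcases mul_eq_zero.1 h3 with h | h
  · exact h
  · exact absurd h h6.ne'

theorem t_NRI : Pool.Agent.J4H58.OC.S_NRI := by
  intro n V V' hn hV hev E hb ⟨x0, hx0⟩
  have hco := coer_all (fun _ : Fin n => hV) hb hx0 ⟨0, hn⟩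
  obtain ⟨l, hl, hopt⟩ := opt hn (fun _ : Fin n => cv_cont hV) (fun _ => cv_convex hV)
    (bdd_all fun _ => hco) hx0
  obtain ⟨c, B, hcB⟩ := hco
  obtain ⟨a, d, k, hd, hNV⟩ := norm_one hV hcB hl
  have ha : a = 0 := shift_zero hV hev hcB hl hd hNV
  subst ha
  obtain ⟨C, hC0, hC⟩ := vol_aff (fun _ : Fin n => (0 : ℝ)) (fun _ => d) (fun _ => hd)
  have hto : ∀ x : Eu (Fin n), (WithLp.toLp 2 (fun i => 0 + d * x i) : Eu (Fin n)) = d • x := by
    intro x
    ext i
    simp
  have hSV : ∀ x : Eu (Fin n), SV (fun _ : Fin n => fun t => l * V (0 + d * t) + k) x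
      = l * SV (fun _ : Fin n => V) (d • x) + ∑ _i : Fin n, k := by
    intro x
    rw [← hto x]
    unfold SV
    rw [Finset.sum_add_distrib, Finset.mul_sum]
  have hmem : ∀ (s : ℝ) (x : Eu (Fin n)),
      x ∈ KV (fun _ : Fin n => fun t => l * V (0 + d * t) + k) (l * s + ∑ _i : Fin n, k)
      ↔ d • x ∈ KV (fun _ : Fin n => V) s := by
    intro s x
    change SV _ x ≤ _ ↔ SV _ _ ≤ s
    rw [hSV x]
    constructor
    · intro h
      have h1 : l * SV (fun _ : Fin n => V) (d • x) ≤ l * s := by linarith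
      exact le_of_mul_le_mul_left h1 hl
    · intro h
      have := mul_le_mul_of_nonneg_left h hl.le
      linarith
  have hvol : ∀ s : ℝ, volume (KV (fun _ : Fin n => fun t => l * V (0 + d * t) + k)
      (l * s + ∑ _i : Fin n, k)) = C * volume (KV (fun _ : Fin n => V) s) := by
    intro s
    rw [← hC]
    congr 1
    ext x
    rw [hmem s x, ← hto x]
    rfl
  refine ⟨fun t => l * V (0 + d * t) + k, fun t => l * d * V' (0 + d * t),
    l * E + ∑ _i : Fin n, k, d, hNV, fun t => ?_, ⟨?_, ?_, ?_⟩, hd, hmem E⟩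
  · have : (0 : ℝ) + d * -t = -(0 + d * t) := by ring
    simp only [this, hev]
  · exact bdd_all (fun _ => ⟨_, _, coer_aff hcB hl hd⟩) _
  · rw [hvol]
    have := KV_pos (fun _ : Fin n => cv_cont hV) hx0
    exact ENNReal.mul_pos hC0 this.ne'
  · intro s
    have hs : s = l * ((s - ∑ _i : Fin n, k) / l) + ∑ _i : Fin n, k := by field_simp; ring
    generalize (s - ∑ _i : Fin n, k) / l = s1 at hs
    rw [hs, hvol, hvol]
    have key := hopt s1
    have ex : ∀ r : ℝ, ENNReal.ofReal (Real.exp (-(l * r + ∑ _i : Fin n, k)))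
        = ENNReal.ofReal (Real.exp (-(l * r))) *
          ENNReal.ofReal (Real.exp (-∑ _i : Fin n, k)) := by
      intro r
      rw [← ENNReal.ofReal_mul (Real.exp_pos _).le, ← Real.exp_add]
      congr 2
      ring
    rw [ex, ex]
    calc C * volume (KV (fun _ : Fin n => V) s1) * (ENNReal.ofReal (Real.exp (-(l * s1))) *
          ENNReal.ofReal (Real.exp (-∑ _i : Fin n, k)))
        = (volume (KV (fun _ : Fin n => V) s1) * ENNReal.ofReal (Real.exp (-(l * s1)))) *
          (C * ENNReal.ofReal (Real.exp (-∑ _i : Fin n, k))) := by ring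
      _ ≤ (volume (KV (fun _ : Fin n => V) E) * ENNReal.ofReal (Real.exp (-(l * E)))) *
          (C * ENNReal.ofReal (Real.exp (-∑ _i : Fin n, k))) := mul_le_mul_left key _
      _ = _ := by ring

end Pool.Agent.J4H71.OC
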