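import Pool.Agent.J4H58.OC.Stm4
import Pool.Agent.R476.OR.A
import Pool.Agent.R476.OR.B
import Pool.Agent.R476.OR.D
import Pool.Agent.R476.OR.I
import Pool.Agent.R634.ORC

/-!
# Project OC: job STL

The main inequality for Lipschitz functions, by mollification.
-/

set_option autoImplicit false

namespace Pool.Agent.J4H71.OC

open MeasureTheory Set Filter Topology ProbabilityTheory
open scoped ENNReal NNReal InnerProductSpace
open Pool.Agent.W695.KH (Eu)
open Pool.Agent.R476.OR (CV NV SV KV LVL)
open Pool.Agent.J4H58.OC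

/-- mollification of a bounded Lipschitz function -/
lemma mollify {n : ℕ} (U : Eu (Fin n) → ℝ) (l : ℝ) (hl : 0 ≤ l) (h0 : ∀ x, 0 ≤ U x)
    (h4 : ∀ x, U x ≤ 4) (hL : ∀ x y, |U x - U y| ≤ l * ‖x - y‖) (ε : ℝ) (hε : 0 < ε) :
    ∃ W : Eu (Fin n) → ℝ, ContDiff ℝ 1 W ∧ (∀ x, 0 ≤ W x) ∧ (∀ x, W x ≤ 4) ∧
      (∀ x, ‖fderiv ℝ W x‖ ≤ l) ∧ ∀ x, |W x - U x| ≤ ε := by
  have hLip : LipschitzWith ⟨l, hl⟩ U := by
    refine LipschitzWith.of_dist_le_mul fun x y => ?_
    rw [Real.dist_eq, dist_eq_norm]
    exact hL x y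
  have hUc : Continuous U := hLip.continuous
  let δ : ℝ := ε / (l + 1)
  have hδ : 0 < δ := by positivity
  let φ : ContDiffBump (0 : Eu (Fin n)) := ⟨δ / 2, δ, by positivity, by linarith⟩
  let ψ : Eu (Fin n) → ℝ := φ.normed volume
  have hψc : Continuous ψ := (φ.contDiff_normed (n := 0)).continuous
  have hψs : HasCompactSupport ψ := φ.hasCompactSupport_normed
  have hψ1 : ∫ x, ψ x = 1 := φ.integral_normed
  have hψi : Integrable ψ := hψc.integrable_of_hasCompactSupport hψs
  have hψ0 : ∀ x, 0 ≤ ψ x := fun x => φ.nonneg_normed x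
  have hi : ∀ x, Integrable fun t => ψ t * U (x - t) := by
    intro x
    refine (hψi.mul_const 4).mono' (by
      have : Continuous fun t => U (x - t) := hUc.comp (continuous_const.sub continuous_id)
      exact (hψc.mul this).aestronglyMeasurable) (Eventually.of_forall fun t => ?_)
    rw [Real.norm_eq_abs, abs_of_nonneg (mul_nonneg (hψ0 t) (h0 _))]
    exact mul_le_mul_of_nonneg_left (h4 _) (hψ0 t)
  let W : Eu (Fin n) → ℝ := MeasureTheory.convolution ψ U (ContinuousLinearMap.lsmul ℝ ℝ) volume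
  have hW : ∀ x, W x = ∫ t, ψ t * U (x - t) := fun x => rfl
  refine ⟨W, ?_, fun x => ?_, fun x => ?_, fun x => ?_, fun x => ?_⟩
  · exact hψs.contDiff_convolution_left (n := 1) _ φ.contDiff_normed hUc.locallyIntegrable
  · rw [hW]
    exact integral_nonneg fun t => mul_nonneg (hψ0 t) (h0 _)
  · rw [hW]
    calc ∫ t, ψ t * U (x - t) ≤ ∫ t, ψ t * 4 :=
          integral_mono (hi x) (hψi.mul_const 4) fun t => mul_le_mul_of_nonneg_left (h4 _) (hψ0 t)
      _ = 4 := by rw [integral_mul_const, hψ1, one_mul]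
  · have h1 : LipschitzWith ⟨l, hl⟩ W := by
      refine LipschitzWith.of_dist_le_mul fun x y => ?_
      rw [Real.dist_eq, dist_eq_norm, hW, hW, ← integral_sub (hi x) (hi y)]
      change _ ≤ l * ‖x - y‖
      calc |∫ t, ψ t * U (x - t) - ψ t * U (y - t)| ≤ ∫ t, |ψ t * U (x - t) - ψ t * U (y - t)| :=
            abs_integral_le_integral_abs
        _ ≤ ∫ t, ψ t * (l * ‖x - y‖) := by
            refine integral_mono ((hi x).sub (hi y)).abs (hψi.mul_const _) fun t => ?_
            change |ψ t * U (x - t) - ψ t * U (y - t)| ≤ ψ t * (l * ‖x - y‖)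
            rw [← mul_sub, abs_mul, abs_of_nonneg (hψ0 t)]
            refine mul_le_mul_of_nonneg_left ((hL _ _).trans ?_) (hψ0 t)
            rw [sub_sub_sub_cancel_right]
        _ = l * ‖x - y‖ := by rw [integral_mul_const, hψ1, one_mul]
    exact norm_fderiv_le_of_lipschitz ℝ h1
  · rw [← Real.dist_eq]
    refine ContDiffBump.dist_normed_convolution_le (μ := volume) hUc.aestronglyMeasurable
      fun y hy => ?_
    rw [Real.dist_eq]
    refine (hL y x).trans ?_
    have h2 : ‖y - x‖ < δ := by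
      rw [← dist_eq_norm]
      exact hy
    have h3 : δ * (l + 1) = ε := div_mul_cancel₀ _ (by positivity)
    nlinarith [norm_nonneg (y - x)]

theorem t_STL : Pool.Agent.J4H58.OC.S_STL := by
  obtain ⟨C, hC, H⟩ := Pool.Agent.R476.OR.sti Pool.Agent.R476.OR.fld Pool.Agent.R476.OR.two
    (Pool.Agent.R634.ORC.ibp Pool.Agent.R476.OR.two)
    (Pool.Agent.R476.OR.plw Pool.Agent.R476.OR.two)
  refine ⟨max C 4, hC.trans (le_max_left _ _), ?_⟩
  intro n V V' hV E hE U l η h0 h4 hl hL hη hI
  have hVc : ∀ i, Continuous (V i) := fun i => Pool.Agent.R476.OR.CV.contV (hV i).cv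
  have hLip : LipschitzWith ⟨l, hl⟩ U := by
    refine LipschitzWith.of_dist_le_mul fun x y => ?_
    rw [Real.dist_eq, dist_eq_norm]
    exact hL x y
  have hUc : Continuous U := hLip.continuous
  have hfin : volume (KV V E) ≠ ⊤ := hE.bdd.measure_lt_top.ne
  have hmeas : MeasurableSet (KV V E) := Pool.Agent.R476.OR.KV_meas V hVc E
  have hvol0 : 0 ≤ (volume (KV V E)).toReal := ENNReal.toReal_nonneg
  have hconst : IntegrableOn (fun _ : Eu (Fin n) => (4 : ℝ)) (KV V E) := by
    rw [integrableOn_const_iff]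
    exact Or.inr hfin.lt_top
  have hint : ∀ F : Eu (Fin n) → ℝ, Continuous F → (∀ x, 0 ≤ F x) → (∀ x, F x ≤ 4) →
      IntegrableOn F (KV V E) := by
    intro F hF hF0 hF4
    refine Integrable.mono' hconst hF.aestronglyMeasurable (Eventually.of_forall fun x => ?_)
    rw [Real.norm_eq_abs, abs_of_nonneg (hF0 x)]
    exact hF4 x
  obtain ⟨hm1, hm2⟩ := Pool.Agent.R476.OR.mass_prod (fun i t => Real.exp (-V i t))
    (fun i => (hV i).nd.int0) (fun i => (hV i).nd.mass)
  have hm3 : (fun x : Eu (Fin n) => ∏ i, Real.exp (-V i (x i))) = fun x => Real.exp (-SV V x) := by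
    funext x
    exact (Pool.Agent.R476.OR.exp_SV V x).symm
  rw [hm3] at hm1 hm2
  have hexpc : Continuous fun x : Eu (Fin n) => Real.exp (-SV V x) :=
    (Pool.Agent.R476.OR.SV_cont V hVc).neg.rexp
  have hint2 : ∀ F : Eu (Fin n) → ℝ, Continuous F → (∀ x, 0 ≤ F x) → (∀ x, F x ≤ 4) →
      Integrable fun x => F x * Real.exp (-SV V x) := by
    intro F hF hF0 hF4
    refine (hm1.const_mul 4).mono' (hF.mul hexpc).aestronglyMeasurable
      (Eventually.of_forall fun x => ?_)
    rw [Real.norm_eq_abs, abs_of_nonneg (mul_nonneg (hF0 x) (Real.exp_pos _).le)]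
    exact mul_le_mul_of_nonneg_right (hF4 x) (Real.exp_pos _).le
  by_cases hη1 : η < 1
  · -- limit
    have key : ∀ ε : ℝ, 0 < ε → η ^ 2 + ε ≤ 1 → ∫ x in KV V E, U x ≤
        C * (Real.sqrt (η ^ 2 + ε) + l) * (volume (KV V E)).toReal +
          ε * (volume (KV V E)).toReal := by
      intro ε hε hε1
      obtain ⟨W, hW1, hW0, hW4, hWl, hWU⟩ := mollify U l hl h0 h4 hL ε hε
      have h1 : ∫ x, W x * Real.exp (-SV V x) ≤ Real.sqrt (η ^ 2 + ε) ^ 2 := by
        rw [Real.sq_sqrt (by positivity)]
        calc ∫ x, W x * Real.exp (-SV V x)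
            ≤ ∫ x, (U x * Real.exp (-SV V x) + ε * Real.exp (-SV V x)) := by
              refine integral_mono (hint2 W hW1.continuous hW0 hW4)
                ((hint2 U hUc h0 h4).add (hm1.const_mul ε)) fun x => ?_
              change W x * Real.exp (-SV V x) ≤ U x * Real.exp (-SV V x) + ε * Real.exp (-SV V x)
              rw [← add_mul]
              refine mul_le_mul_of_nonneg_right ?_ (Real.exp_pos _).le
              have := (abs_le.1 (hWU x)).2
              linarith
          _ = (∫ x, U x * Real.exp (-SV V x)) + ε := by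
              rw [integral_add (hint2 U hUc h0 h4) (hm1.const_mul ε), integral_const_mul, hm2,
                mul_one]
          _ ≤ η ^ 2 + ε := by linarith
      have h2 : Real.sqrt (η ^ 2 + ε) ≤ 1 := Real.sqrt_le_one.2 hε1
      have h3 := H n V V' hV E hE W l (Real.sqrt (η ^ 2 + ε)) hW1 hW0 hW4 hl hWl
        (Real.sqrt_nonneg _) h2 h1
      calc ∫ x in KV V E, U x ≤ ∫ x in KV V E, (W x + ε) := by
            refine integral_mono (hint U hUc h0 h4) ((hint W hW1.continuous hW0 hW4).add ?_)
              fun x => ?_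
            · rw [integrableOn_const_iff]
              exact Or.inr hfin.lt_top
            · change U x ≤ W x + ε
              have := (abs_le.1 (hWU x)).1
              linarith
        _ = (∫ x in KV V E, W x) + ε * (volume (KV V E)).toReal := by
            rw [integral_add (hint W hW1.continuous hW0 hW4) ((integrableOn_const_iff (by simp)).2
              (Or.inr hfin.lt_top))]
            rw [setIntegral_const, smul_eq_mul, mul_comm ε]
            rfl
        _ ≤ _ := by linarith
    have hlim : Tendsto (fun ε : ℝ => C * (Real.sqrt (η ^ 2 + ε) + l) * (volume (KV V E)).toReal +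
        ε * (volume (KV V E)).toReal) (𝓝[>] 0) (𝓝 (C * (Real.sqrt (η ^ 2 + 0) + l) *
          (volume (KV V E)).toReal + 0 * (volume (KV V E)).toReal)) := by
      refine tendsto_nhdsWithin_of_tendsto_nhds ?_
      refine Continuous.tendsto (f := fun ε : ℝ => C * (Real.sqrt (η ^ 2 + ε) + l) *
        (volume (KV V E)).toReal + ε * (volume (KV V E)).toReal) ?_ 0
      fun_prop
    have hev : ∀ᶠ ε in 𝓝[>] (0 : ℝ), ∫ x in KV V E, U x ≤
        C * (Real.sqrt (η ^ 2 + ε) + l) * (volume (KV V E)).toReal +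
          ε * (volume (KV V E)).toReal := by
      have h5 : 0 < 1 - η ^ 2 := by nlinarith
      filter_upwards [Ioo_mem_nhdsGT h5] with ε hε
      exact key ε hε.1 (by linarith [hε.2])
    have h6 := ge_of_tendsto hlim hev
    rw [add_zero, zero_mul, add_zero, Real.sqrt_sq hη] at h6
    refine h6.trans (mul_le_mul_of_nonneg_right (mul_le_mul_of_nonneg_right (le_max_left _ _)
      (by positivity)) hvol0)
  · have hη1' : 1 ≤ η := not_lt.1 hη1
    calc ∫ x in KV V E, U x ≤ ∫ x in KV V E, (4 : ℝ) :=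
          integral_mono (hint U hUc h0 h4) hconst fun x => h4 x
      _ = 4 * (volume (KV V E)).toReal := by
          rw [setIntegral_const, smul_eq_mul, mul_comm]
          rfl
      _ ≤ max C 4 * (η + l) * (volume (KV V E)).toReal := by
          refine mul_le_mul_of_nonneg_right ?_ hvol0
          have h7 : (4 : ℝ) ≤ max C 4 := le_max_right _ _
          nlinarith

end Pool.Agent.J4H71.OC
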